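import Pool.Agent.Y7.LN.Stm
import Pool.Agent.Y987.EJ.Lim

/-!
Job LN-LIMG (project LN of helper7; by helper38): limits of the solutions of the truncated systems
with general initial data along an ultrafilter (adaptation of `Pool/Agent/Y987/EJ/Lim.lean` and
`Pool/Agent/Y914/SK/Lim.lean`).
-/

open Set Filter Topology MeasureTheory

set_option autoImplicit false

namespace Pool.Agent.Y38.LN.LIMG

open Pool.Agent.Y5.D (Ix qd vf3 Init)
open Pool.Agent.Y6.N
open Pool.Agent.Y6.K (Kz lv)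
open Pool.Agent.Y665.NSK (dom dom_nonneg dom_summable Ctl wq wq_summable wq_mono wq_tendsto
  qd_diff Bd sw kc Kz_eq G lev_fin)
open Pool.Agent.Y303.SK (KD)
open Pool.Agent.Y303.EJ (SeqE)
open Pool.Agent.Y914.SK (ld_summable ctl_term ctl_summable size dsize Lc Lc_nonneg G_le wG wG_mono
  wG_tendsto G_diff)
open Pool.Agent.Y987.EJ (L_twoE Bd_nonnegE Bd_summableE)
open Pool.Agent.Y7.LN (TSG)

variable {J : Type} {g o : J → ℕ} {σ : J → J} {τ : J → ℝ} {L C ℓ ρ : ℕ → ℝ}
  {B : ℕ → ℕ → ℝ} {R E : Ix J → ℝ} {D : Ix J → Ix J → ℝ} {c : Ix J → Ix J → Ix J → ℝ}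
  {Θ : ℝ} {S : ℕ → ℝ}

/-! ### The truncated solutions -/

lemma tg_summable (hR : Rot o σ τ) {N : ℕ} {z : Ix J → ℝ → ℝ} (hz : TSG Θ S o σ τ D c N z)
    (t : ℝ) : Summable (fun a => z a t ^ 2) := by
  refine summable_of_ne_finset_zero (s := (lev_fin hR N).toFinset) ?_
  intro b hb
  rw [Set.Finite.mem_toFinset, Set.mem_ofPred_eq, not_le] at hb
  rw [hz.zero b hb t]
  simp

lemma tg_le {N : ℕ} {z : Ix J → ℝ → ℝ} (hz : TSG Θ S o σ τ D c N z)
    {t : ℝ} (ht : t ∈ Icc (0 : ℝ) Θ) : ∑' a, z a t ^ 2 ≤ 1 := (hz.energy t ht).trans hz.one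

lemma tg_one (hR : Rot o σ τ) {N : ℕ} {z : Ix J → ℝ → ℝ} (hz : TSG Θ S o σ τ D c N z)
    {t : ℝ} (ht : t ∈ Icc (0 : ℝ) Θ) (a : Ix J) : |z a t| ≤ 1 := by
  have h1 : z a t ^ 2 ≤ ∑' a, z a t ^ 2 := (tg_summable hR hz t).le_tsum a fun b _ => sq_nonneg _
  have h3 : z a t ^ 2 ≤ 1 := h1.trans (tg_le hz ht)
  exact (sq_le_one_iff_abs_le_one _).1 h3

lemma tg_lip (hK : KD g L C ℓ ρ B R E D c) (hR : Rot o σ τ)
    {N : ℕ} {z : Ix J → ℝ → ℝ} (hz : TSG Θ S o σ τ D c N z) (a : Ix J) {s t : ℝ}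
    (hs' : s ∈ Icc (0 : ℝ) Θ) (ht : t ∈ Icc (0 : ℝ) Θ) :
    |z a t - z a s| ≤ Lc R E S o τ a * |t - s| := by
  by_cases ha : lv o a ≤ N
  · refine (convex_Icc (0 : ℝ) Θ).norm_image_sub_le_of_norm_hasDerivWithin_le
      (fun r hr => hz.deriv a ha r hr)
      (fun r hr => ?_) hs' ht
    refine G_le (S := S) (o := o) (σ := σ) (τ := τ) (s := (lev_fin hR N).toFinset) hK
      (tg_one hR hz hr) ?_ ?_ a
    · intro b hb
      rw [Set.Finite.mem_toFinset, Set.mem_ofPred_eq, not_le] at hb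
      exact hz.zero b hb r
    · exact ((tg_summable hR hz r).sum_le_tsum _ fun b _ => sq_nonneg _).trans (tg_le hz hr)
  · rw [not_le] at ha
    rw [hz.zero a ha, hz.zero a ha, sub_zero, abs_zero]
    exact mul_nonneg (Lc_nonneg hK a) (abs_nonneg _)

lemma tg_taylor (hK : KD g L C ℓ ρ B R E D c)
    (hR : Rot o σ τ) {Bd : Ix J → ℝ} (hB : ∀ a, 0 ≤ Bd a) (hs : Summable Bd)
    {N : ℕ} {z : Ix J → ℝ → ℝ} (hz : TSG Θ S o σ τ D c N z) {θ : ℝ} (hθ : 0 ≤ θ)
    (hb : ∀ t ∈ Icc θ Θ, ∀ a, |z a t| ≤ Bd a) (i : Ix J)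
    (hi : lv o i ≤ N) {s t : ℝ} (hs' : s ∈ Icc θ Θ) (ht : t ∈ Icc θ Θ) :
    |z i t - z i s - (t - s) * G S o σ τ D c (fun a => z a s) i|
      ≤ wG R E S o σ τ D c Bd i |t - s| * |t - s| := by
  have hsub : uIcc s t ⊆ Icc θ Θ := uIcc_subset_Icc hs' ht
  have hsub2 : Icc θ Θ ⊆ Icc (0 : ℝ) Θ := Icc_subset_Icc_left hθ
  have hctl : ∀ r ∈ Icc θ Θ, Ctl Bd (fun a => z a r) := fun r hr =>
    ⟨tg_one hR hz (hsub2 hr), hb r hr⟩
  set q := G S o σ τ D c (fun a => z a s) i with hq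
  have h1 : ∀ r ∈ uIcc s t, HasDerivWithinAt (fun r => z i r - r * q)
      (G S o σ τ D c (fun a => z a r) i - 1 * q) (uIcc s t) r := by
    intro r hr
    exact ((hz.deriv i hi r (hsub2 (hsub hr))).mono (hsub.trans hsub2)).sub
      ((hasDerivWithinAt_id r _).mul_const q)
  have h2 : ∀ r ∈ uIcc s t, ‖G S o σ τ D c (fun a => z a r) i - 1 * q‖ ≤
      wG R E S o σ τ D c Bd i |t - s| := by
    intro r hr
    rw [one_mul, Real.norm_eq_abs]
    refine (G_diff hK hB hs (hctl r (hsub hr)) (hctl s hs')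
      (abs_nonneg (r - s)) (fun a => tg_lip hK hR hz a (hsub2 hs')
        (hsub2 (hsub hr))) i).trans ?_
    exact wG_mono hK hB hs i (abs_nonneg _) (abs_sub_left_of_mem_uIcc hr)
  have h3 := (convex_uIcc s t).norm_image_sub_le_of_norm_hasDerivWithin_le h1 h2
    left_mem_uIcc right_mem_uIcc
  have h4 : z i t - t * q - (z i s - s * q) = z i t - z i s - (t - s) * q := by ring
  rw [h4] at h3
  exact h3

/-! ### The limit -/

theorem t_LIMG : Pool.Agent.Y7.LN.S_LIMG := by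
  intro J g o σ τ η lm L C ℓ ρ B R E D c Θ S b hK hSeq hR hΘ hb0 hbs Z hZ hZb U hU
  have hone : ∀ N, ∀ t ∈ Icc (0 : ℝ) Θ, ∀ a, |Z N a t| ≤ 1 := fun N t ht a =>
    tg_one hR (hZ N) ht a
  have hex : ∀ i : Ix J, ∀ t : ℝ, ∃ x : ℝ, t ∈ Icc (0 : ℝ) Θ →
      Tendsto (fun N => Z N i t) U (𝓝 x) := by
    intro i t
    by_cases ht : t ∈ Icc (0 : ℝ) Θ
    · have hc : IsCompact (Icc (-1 : ℝ) 1) := isCompact_Icc
      have hm : (U.map (fun N => Z N i t) : Filter ℝ) ≤ 𝓟 (Icc (-1 : ℝ) 1) := by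
        rw [le_principal_iff]
        exact Filter.mem_map.2 (Filter.univ_mem' fun N => abs_le.1 (hone N t ht i))
      obtain ⟨x, _, hx⟩ := hc.ultrafilter_le_nhds (U.map (fun N => Z N i t)) hm
      exact ⟨x, fun _ => hx⟩
    · exact ⟨0, fun h => absurd h ht⟩
  choose z hz using hex
  have hlim : ∀ i, ∀ t ∈ Icc (0 : ℝ) Θ, Tendsto (fun N => Z N i t) U (𝓝 (z i t)) :=
    fun i t ht => hz i t ht
  have hge : ∀ i, ∀ᶠ N in (U : Filter ℕ), lv o i ≤ N := fun i => hU (eventually_ge_atTop _)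
  refine ⟨z, hlim, ?_, ?_, ?_, ?_⟩
  · intro t ht
    have h1 : ∀ F : Finset (Ix J), ∑ a ∈ F, z a t ^ 2 ≤ 1 := by
      intro F
      have h2 : Tendsto (fun N => ∑ a ∈ F, Z N a t ^ 2) U (𝓝 (∑ a ∈ F, z a t ^ 2)) :=
        tendsto_finsetSum _ fun a _ => (hlim a t ht).pow 2
      refine le_of_tendsto h2 (Eventually.of_forall fun N => ?_)
      exact ((tg_summable hR (hZ N) t).sum_le_tsum F fun a _ => sq_nonneg _).trans
        (tg_le (hZ N) ht)
    exact ⟨summable_of_sum_le (fun a => sq_nonneg _) h1,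
      Real.tsum_le_of_sum_le (fun a => sq_nonneg _) h1⟩
  · intro j t ht
    exact le_of_tendsto (hlim (Sum.inr j) t ht).abs
      (Eventually.of_forall fun N => hZb N j t ht)
  · intro i
    refine ⟨Lc R E S o τ i, Lc_nonneg hK i, fun s hs t ht => ⟨?_, fun N =>
      tg_lip hK hR (hZ N) i hs ht⟩⟩
    exact le_of_tendsto ((hlim i t ht).sub (hlim i s hs)).abs
      (Eventually.of_forall fun N => tg_lip hK hR (hZ N) i hs ht)
  · rintro θ hθ0 hθ ⟨X, hX⟩ i s hs'
    have hsub : Icc θ Θ ⊆ Icc (0 : ℝ) Θ := Icc_subset_Icc_left hθ0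
    have hB := Bd_nonnegE (b := b) hSeq hb0 X
    have hBs := Bd_summableE hSeq hbs X
    -- the bound holds for almost all `N`
    have hbd : ∀ᶠ N in (U : Filter ℕ), ∀ t ∈ Icc θ Θ, ∀ a, |Z N a t| ≤ Bd L b X a := by
      filter_upwards [hX] with N hN t ht a
      cases a with
      | inl n =>
        have h1 := L_twoE hSeq n
        have h2 : (0 : ℝ) < 2 ^ n := by positivity
        have h3 : 0 < L n := by linarith
        show |Z N (Sum.inl n) t| ≤ |X| / L n
        rw [le_div_iff₀ h3, mul_comm]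
        exact (hN t ht n).trans (le_abs_self X)
      | inr j => exact hZb N j t (hsub ht)
    have hq : ∀ i, ∀ t ∈ Icc θ Θ,
        Tendsto (fun N => G S o σ τ D c (fun a => Z N a t) i) U
          (𝓝 (G S o σ τ D c (fun a => z a t) i)) := by
      intro i t ht
      unfold G
      refine Tendsto.add (Tendsto.sub ?_ ?_) ?_
      · simp_rw [Kz_eq]
        exact (hlim _ t (hsub ht)).const_mul _
      · unfold lin
        refine tendsto_tsum_of_dominated_convergence
          (ld_summable (D := D) (i := i) (fun b => dsize hK i b) hB hBs) ?_ ?_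
        · intro p
          exact (hlim p t (hsub ht)).const_mul _
        · filter_upwards [hbd] with N hN p
          have hctl : Ctl (Bd L b X) (fun a => Z N a t) := ⟨hone N t (hsub ht), hN t ht⟩
          exact ctl_term hctl i p
      · unfold qd
        refine tendsto_tsum_of_dominated_convergence
          (dom_summable (c := c) (i := i) (fun a b => size hK i a b) hB hBs) ?_ ?_
        · intro p
          exact ((hlim p.1 t (hsub ht)).const_mul _).mul (hlim p.2 t (hsub ht))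
        · filter_upwards [hbd] with N hN p
          have hctl : Ctl (Bd L b X) (fun a => Z N a t) := ⟨hone N t (hsub ht), hN t ht⟩
          exact hctl.term hctl i p
    have htay : ∀ i, ∀ s ∈ Icc θ Θ, ∀ t ∈ Icc θ Θ,
        |z i t - z i s - (t - s) * G S o σ τ D c (fun a => z a s) i|
          ≤ wG R E S o σ τ D c (Bd L b X) i |t - s| * |t - s| := by
      intro i s hs' t ht
      have h1 : Tendsto (fun N => |Z N i t - Z N i s -
          (t - s) * G S o σ τ D c (fun a => Z N a s) i|)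
          U (𝓝 |z i t - z i s - (t - s) * G S o σ τ D c (fun a => z a s) i|) :=
        (((hlim i t (hsub ht)).sub (hlim i s (hsub hs'))).sub ((hq i s hs').const_mul _)).abs
      refine le_of_tendsto h1 ?_
      filter_upwards [hge i, hbd] with N hN hNb
      exact tg_taylor hK hR hB hBs (hZ N) hθ0 hNb i hN hs' ht
    show HasDerivWithinAt (z i) (G S o σ τ D c (fun a => z a s) i) (Icc θ Θ) s
    rw [hasDerivWithinAt_iff_isLittleO, Asymptotics.isLittleO_iff]
    intro ε hε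
    have hw := wG_tendsto (S := S) (o := o) (σ := σ) (τ := τ) hK hB hBs i
    have h1 : ∀ᶠ δ in 𝓝[≥] (0 : ℝ), wG R E S o σ τ D c (Bd L b X) i δ < ε :=
      hw.eventually_lt_const hε
    have h2 : Tendsto (fun t : ℝ => |t - s|) (𝓝[Icc θ Θ] s) (𝓝[≥] 0) := by
      refine tendsto_nhdsWithin_iff.2 ⟨?_, Eventually.of_forall fun t =>
        Set.mem_Ici.2 (abs_nonneg _)⟩
      have hc : Continuous (fun t : ℝ => |t - s|) := by fun_prop
      have := hc.tendsto s
      rw [sub_self, abs_zero] at this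
      exact this.mono_left nhdsWithin_le_nhds
    filter_upwards [h2.eventually h1, self_mem_nhdsWithin] with t ht ht'
    rw [Real.norm_eq_abs, Real.norm_eq_abs, smul_eq_mul]
    exact (htay i s hs' t ht').trans (mul_le_mul_of_nonneg_right ht.le (abs_nonneg _))

end Pool.Agent.Y38.LN.LIMG
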